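import Mathlib

set_option autoImplicit false

namespace Pool.Agent.Results.MP_44afb3_an.Counterexample

open Filter Topology Set

section defs
variable {H K : Type*} [NormedAddCommGroup H] [InnerProductSpace ℂ H] [NormedAddCommGroup K]
  [InnerProductSpace ℂ K]

/-- Boolean algebra of (closed) subspaces under intersection and closed span. -/
def IsBool (E : Set (ClosedSubmodule ℂ H)) : Prop :=
  ⊥ ∈ E ∧ ⊤ ∈ E ∧ (∀ M ∈ E, ∀ N ∈ E, M ⊓ N ∈ E ∧ M ⊔ N ∈ E) ∧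
    (∀ L ∈ E, ∀ M ∈ E, ∀ N ∈ E, L ⊓ (M ⊔ N) = (L ⊓ M) ⊔ (L ⊓ N)) ∧
    ∀ M ∈ E, ∃ N ∈ E, M ⊓ N = ⊥ ∧ M ⊔ N = ⊤

/-- Every subfamily has a supremum in `E` for inclusion. -/
def IsCompleteFam (E : Set (ClosedSubmodule ℂ H)) : Prop :=
  ∀ S ⊆ E, ∃ M ∈ E, (∀ N ∈ S, N ≤ M) ∧ ∀ L ∈ E, (∀ N ∈ S, N ≤ L) → M ≤ L

/-- `E = Lat Alg E`. -/
def IsReflexive (E : Set (ClosedSubmodule ℂ H)) : Prop :=
  E = {M | ∀ A : H →L[ℂ] H, (∀ N ∈ E, ∀ x ∈ N, A x ∈ N) → ∀ x ∈ M, A x ∈ M}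

/-- A bijection from `E` onto `F` preserving meets and joins. -/
def LatIso (E : Set (ClosedSubmodule ℂ H)) (F : Set (ClosedSubmodule ℂ K)) : Prop :=
  ∃ φ : ClosedSubmodule ℂ H → ClosedSubmodule ℂ K, BijOn φ E F ∧
    ∀ M ∈ E, ∀ N ∈ E, φ (M ⊓ N) = φ M ⊓ φ N ∧ φ (M ⊔ N) = φ M ⊔ φ N

lemma noiso [CompleteSpace K] {F : Set (ClosedSubmodule ℂ K)} (hF : IsReflexive F)
    (M : Set ℝ → ClosedSubmodule ℂ K)
    (h1 : ∀ U V, IsOpen U → IsOpen V → (M U ≤ M V ↔ U ⊆ closure V))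
    (h2 : ∀ N ∈ F, ∃ W, IsOpen W ∧ M W = N) (h3 : ∀ U, IsOpen U → M U ∈ F) : False := by
  have s1 : ∀ f : ℕ → ClosedSubmodule ℂ K, (∀ n, f n ∈ F) → ⨆ n, f n ∈ F := fun f hf => by
    rw [hF]
    exact fun A hA => iSup_le (a := (⨆ n, f n).comap A) fun n x hx => le_iSup f n (hA _ (hf n) x hx)
  have s2 : ∀ f : ℕ → ClosedSubmodule ℂ K, (∀ n, f n ∈ F) → ⨅ n, f n ∈ F := fun f hf => by
    rw [hF]
    exact fun A hA x hx => ClosedSubmodule.mem_iInf.2 fun n =>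
      hA _ (hf n) x (ClosedSubmodule.mem_iInf.1 hx n)
  have s3 : M ∅ ≤ ⊥ := by
    obtain ⟨W, hW, e⟩ := h2 ⊥ (by rw [hF]; intro A _ x hx; simp_all)
    exact e ▸ (h1 _ _ isOpen_empty hW).2 (empty_subset _)
  have mono : ∀ U V, IsOpen U → IsOpen V → U ⊆ V → M U ≤ M V := fun U V a b c =>
    (h1 U V a b).2 (c.trans subset_closure)
  obtain ⟨x0, a0, b0⟩ : ∃ x ∈ M univ, x ∉ M ∅ :=
    SetLike.not_le_iff_exists.1 (by simp [h1 _ _ isOpen_univ isOpen_empty])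
  have c0 : 0 < ‖x0‖ := norm_pos_iff.2 (by rintro rfl; exact b0 (zero_mem _))
  have step : ∀ (q ε : ℝ), 0 < ε → ∀ p : {p : Set ℝ × K // IsOpen p.1 ∧ p.2 ∈ M p.1},
      ∃ p' : {p : Set ℝ × K // IsOpen p.1 ∧ p.2 ∈ M p.1}, p'.1.1 ⊆ p.1.1 ∧ q ∉ closure p'.1.1 ∧
        dist p.1.2 p'.1.2 < ε := by
    rintro q ε hε ⟨⟨C, x⟩, hC, hx⟩
    let D : ℕ → Set ℝ := fun k => C \ Metric.closedBall q (1 / (k + 1))
    have o : ∀ k, IsOpen (D k) := fun k => hC.sdiff Metric.isClosed_closedBall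
    obtain ⟨W, hW, e⟩ := h2 _ (s1 _ fun k => h3 _ (o k))
    have : M C ≤ M W := (h1 _ _ hC hW).2 <| by
      refine ((dense_compl_singleton q).open_subset_closure_inter hC).trans
        (closure_minimal (fun y hy => ?_) isClosed_closure)
      obtain ⟨k, hk⟩ := exists_nat_one_div_lt (dist_pos.2 hy.2)
      exact (h1 _ _ (o k) hW).1 (e ▸ le_iSup (fun k => M (D k)) k) ⟨hy.1, not_le.2 hk⟩
    have hx' := ClosedSubmodule.mem_iSup.1 (e ▸ this hx)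
    obtain ⟨y, hy, d⟩ := Metric.mem_closure_iff.1 hx' ε hε
    obtain ⟨k, hk⟩ := (Submodule.mem_iSup_of_directed _ (Monotone.directed_le fun k l h =>
      mono _ _ (o k) (o l) (sdiff_subset_sdiff_right (Metric.closedBall_subset_closedBall
        (Nat.one_div_le_one_div h))))).1 hy
    refine ⟨⟨(D k, y), o k, hk⟩, sdiff_subset, fun h => ?_, d⟩
    obtain ⟨z, hz, d⟩ := Metric.mem_closure_iff.1 h _ (Nat.one_div_pos_of_nat (n := k))
    exact hz.2 (Metric.mem_closedBall'.2 d.le)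
  choose f f1 f2 f3 using step
  obtain ⟨q, hq⟩ := TopologicalSpace.exists_dense_seq ℝ
  let p : ℕ → {p : Set ℝ × K // IsOpen p.1 ∧ p.2 ∈ M p.1} := fun n => n.rec
    ⟨(univ, x0), isOpen_univ, a0⟩ fun n p => f (q n) (‖x0‖ / 2 / 2 / 2 ^ n) (by positivity) p
  have d : ∀ n, dist (p n).1.2 (p (n + 1)).1.2 ≤ ‖x0‖ / 2 / 2 / 2 ^ n := fun n => (f3 _ _ _ _).le
  obtain ⟨x, hx⟩ := cauchySeq_tendsto_of_complete (cauchySeq_of_le_geometric_two d)
  have d0 : dist x0 x ≤ ‖x0‖ / 2 := dist_le_of_le_geometric_two_of_tendsto₀ d hx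
  have an : Antitone fun n => (p n).1.1 := antitone_nat_of_succ_le fun n => f1 _ _ _ _
  obtain ⟨W, hW, e⟩ := h2 _ (s2 _ fun n => h3 _ (p n).2.1)
  have hx' : x ∈ M W := e ▸ ClosedSubmodule.mem_iInf.2 fun n =>
    (M _).isClosed.mem_of_tendsto hx ((eventually_ge_atTop n).mono fun m h =>
      mono _ _ (p m).2.1 (p n).2.1 (an h) (p m).2.2)
  rcases W.eq_empty_or_nonempty with rfl | h
  · rw [show x = 0 from s3 hx', dist_zero_right] at d0
    linarith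
  · obtain ⟨n, hn⟩ := hq.exists_mem_open hW h
    exact f2 _ _ _ _ ((h1 _ _ hW (p (n + 1)).2.1).1
      (e ▸ iInf_le (fun n => M (p n).1.1) (n + 1)) hn)

lemma exists_ult : ∃ u : ℕ → Ultrafilter ℝ, ∀ U V, IsOpen U → IsOpen V →
    ((∀ i, U ∈ u i → V ∈ u i) ↔ U ⊆ closure V) ∧ ∀ i, U ∪ (closure U)ᶜ ∈ u i := by
  obtain ⟨q, hq⟩ := TopologicalSpace.exists_dense_seq ℝ
  have nb : ∀ x : ℝ, (𝓝 x ⊓ residual ℝ).NeBot := fun x => inf_neBot_iff.2 fun s hs t ht =>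
    inter_comm t s ▸ (dense_of_mem_residual ht).inter_nhds_nonempty hs
  choose u hu using fun i => @Ultrafilter.exists_le _ _ (nb (q i))
  have r : ∀ U, IsOpen U → ∀ i, U ∪ (closure U)ᶜ ∈ u i := fun U hU i => hu i (mem_inf_of_right
    (residual_of_dense_open (hU.union isClosed_closure.isOpen_compl) fun x => by
      rw [closure_union]
      exact (em (x ∈ closure U)).imp_right fun h => subset_closure h))
  refine ⟨u, fun U V hU hV => ⟨⟨fun h x hx => by_contra fun hx' => ?_, fun h i hi => ?_⟩, r U hU⟩⟩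
  · have o := hU.sdiff (isClosed_closure (s := V))
    obtain ⟨i, hi⟩ := hq.exists_mem_open o ⟨x, hx, hx'⟩
    have m : U \ closure V ∈ u i := hu i (mem_inf_of_left (o.mem_nhds hi))
    obtain ⟨y, y1, y2⟩ := (u i).nonempty_of_mem
      (inter_mem m (h i (mem_of_superset m sdiff_subset)))
    exact y1.2 (subset_closure y2)
  · filter_upwards [hi, r V hV i] with y y1 y2
    exact y2.resolve_right fun h' => h' (h y1)

lemma exists_L (b : HilbertBasis ℕ ℂ H) : ∃ L : Set ℕ → ClosedSubmodule ℂ H,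
    (∀ A B, L A ≤ L B ↔ A ⊆ B) ∧ (∀ A B, L A ⊓ L B = L (A ∩ B)) ∧
      (∀ A B, L A ⊔ L B = L (A ∪ B)) ∧ L ∅ = ⊥ ∧ L univ = ⊤ := by
  let L : Set ℕ → ClosedSubmodule ℂ H := fun A => ⨅ i ∈ Aᶜ, (⊥ : ClosedSubmodule ℂ ℂ).comap
    (innerSL ℂ (b i))
  have m : ∀ A x, x ∈ L A ↔ ∀ i ∉ A, inner ℂ (b i) x = 0 := fun A x => by simp [L]
  have m1 : ∀ A i, b i ∈ L A ↔ i ∈ A := fun A i => by
    rw [m]
    refine ⟨fun h => by_contra fun h' => ?_, fun h j hj => b.orthonormal.2 ?_⟩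
    · simpa [inner_self_eq_norm_sq_to_K, b.orthonormal.1 i] using h i h'
    · rintro rfl; exact hj h
  have m2 : ∀ A N, (∀ i ∈ A, b i ∈ N) → L A ≤ N := fun A N h x hx =>
    N.isClosed.mem_of_tendsto (b.hasSum_repr x) (Eventually.of_forall fun s =>
      sum_mem (S := N) fun i _ => by
        by_cases hi : i ∈ A
        · exact SMulMemClass.smul_mem _ (h i hi)
        · rw [b.repr_apply_apply, (m A x).1 hx i hi, zero_smul]; exact zero_mem _)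
  have m3 : ∀ A B, L A ≤ L B ↔ A ⊆ B := fun A B =>
    ⟨fun h i hi => (m1 B i).1 (h ((m1 A i).2 hi)), fun h => m2 _ _ fun i hi => (m1 B i).2 (h hi)⟩
  refine ⟨L, m3, fun A B => ?_, fun A B => le_antisymm
    (sup_le ((m3 _ _).2 subset_union_left) ((m3 _ _).2 subset_union_right))
    (m2 _ _ fun i hi => hi.elim (fun h => le_sup_left (a := L A) ((m1 A i).2 h))
      fun h => le_sup_right (a := L A) ((m1 B i).2 h)), bot_unique (m2 _ _ fun _ => False.elim),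
    top_unique fun x _ => (m _ x).2 fun i hi => (hi trivial).elim⟩
  ext x
  simp only [SetLike.mem_coe, ClosedSubmodule.carrier_eq_coe,
    ClosedSubmodule.mem_inf, m, mem_inter_iff, not_and_or, or_imp, forall_and]

lemma main (b : HilbertBasis ℕ ℂ H) : ∃ M : Set ℝ → ClosedSubmodule ℂ H,
    IsBool (M '' {U | IsOpen U}) ∧ IsCompleteFam (M '' {U | IsOpen U}) ∧
      ∀ U V, IsOpen U → IsOpen V → (M U ≤ M V ↔ U ⊆ closure V) := by
  obtain ⟨u, hu⟩ := exists_ult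
  obtain ⟨L, l1, l2, l3, l4, l5⟩ := exists_L b
  let M : Set ℝ → ClosedSubmodule ℂ H := fun U => L {i | U ∈ u i}
  have m1 : ∀ U V, IsOpen U → IsOpen V → (M U ≤ M V ↔ U ⊆ closure V) := fun U V a c =>
    (l1 _ _).trans (hu U V a c).1
  have m2 : ∀ U V, M U ⊓ M V = M (U ∩ V) := fun U V =>
    (l2 _ _).trans (congrArg L (Set.ext fun i => inter_mem_iff.symm))
  have m3 : ∀ U V, M U ⊔ M V = M (U ∪ V) := fun U V =>
    (l3 _ _).trans (congrArg L (Set.ext fun i => Ultrafilter.union_mem_iff.symm))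
  have m4 : M ∅ = ⊥ := by simp [M, l4]
  refine ⟨M, ⟨⟨_, isOpen_empty (X := ℝ), m4⟩, ⟨univ, isOpen_univ (X := ℝ), l5 ▸ congrArg L (eq_univ_of_forall fun _ => univ_mem)⟩, ?_, ?_, ?_⟩,
    fun S hS => ?_, m1⟩
  · rintro _ ⟨U, hU, rfl⟩ _ ⟨V, hV, rfl⟩
    exact ⟨⟨_, IsOpen.inter (X := ℝ) hU hV, (m2 U V).symm⟩, _, IsOpen.union (X := ℝ) hU hV, (m3 U V).symm⟩
  · rintro _ ⟨U, -, rfl⟩ _ ⟨V, -, rfl⟩ _ ⟨W, -, rfl⟩
    simp only [m2, m3, inter_union_distrib_left]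
  · rintro _ ⟨U, hU, rfl⟩
    refine ⟨_, ⟨(closure U)ᶜ, (isClosed_closure (s := U)).isOpen_compl, rfl⟩, ?_, ?_⟩
    · rw [m2, ← m4, (disjoint_compl_right.mono_left subset_closure).inter_eq]
    · rw [m3, ← l5]
      exact congrArg L (eq_univ_of_forall (hu U U hU hU).2)
  · have o : IsOpen (⋃₀ {U | IsOpen U ∧ M U ∈ S}) := isOpen_sUnion fun _ h => h.1
    refine ⟨_, ⟨_, o, rfl⟩, fun N hN => ?_, ?_⟩
    · obtain ⟨U, hU, rfl⟩ := hS hN
      exact (m1 _ _ hU o).2 ((subset_sUnion_of_mem (by exact ⟨hU, hN⟩)).trans subset_closure)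
    · rintro _ ⟨V, hV, rfl⟩ h
      exact (m1 _ _ o hV).2 (sUnion_subset fun U hU => (m1 _ _ hU.1 hV).1 (h _ hU.2))

end defs

universe u

/-- A complete Boolean algebra of subspaces of a separable Hilbert space that is not lattice
isomorphic to any reflexive family of subspaces of any Hilbert space. -/
theorem result : ∃ (H : Type) (_ : NormedAddCommGroup H) (_ : InnerProductSpace ℂ H)
    (_ : CompleteSpace H) (_ : TopologicalSpace.SeparableSpace H) (E : Set (ClosedSubmodule ℂ H)),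
    IsBool E ∧ IsCompleteFam E ∧
      ∀ (K : Type u) [NormedAddCommGroup K] [InnerProductSpace ℂ K] [CompleteSpace K]
        (F : Set (ClosedSubmodule ℂ K)), IsReflexive F → ¬ LatIso E F := by
  let b : HilbertBasis ℕ ℂ (lp (fun _ : ℕ => ℂ) 2) := default
  obtain ⟨M, h1, h2, h3⟩ := main b
  refine ⟨_, _, _, inferInstance, ?_, _, h1, h2, fun K _ _ _ F hF ⟨φ, p1, p2⟩ => ?_⟩
  · rw [← TopologicalSpace.isSeparable_univ_iff]
    exact ((countable_range b).isSeparable.span (R := ℂ)).closure.mono fun x _ => b.dense_span.ge trivial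
  · refine noiso hF (fun U => φ (M U)) (fun U V hU hV => ?_) (fun N hN => ?_)
      fun U hU => p1.mapsTo ⟨U, hU, rfl⟩
    · rw [← h3 U V hU hV, ← inf_eq_left, ← inf_eq_left, ← (p2 _ ⟨U, hU, rfl⟩ _ ⟨V, hV, rfl⟩).1]
      exact p1.injOn.eq_iff (h1.2.2.1 _ ⟨U, hU, rfl⟩ _ ⟨V, hV, rfl⟩).1 ⟨U, hU, rfl⟩
    · obtain ⟨_, ⟨W, hW, rfl⟩, rfl⟩ := p1.surjOn hN
      exact ⟨W, hW, rfl⟩

end Pool.Agent.Results.MP_44afb3_an.Counterexample
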